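import Pool.Agent.THS.StmtsB

/-!
THS, row FBD (helper17): bound of `ff` at all places.
-/

set_option autoImplicit false

namespace Pool.Agent.THS.H17

open scoped BigOperators

theorem inf_two {K : Type} [Field K] [NumberField K] (v : NumberField.InfinitePlace K) :
    v.val 2 = 2 := by
  obtain ⟨φ, hφ⟩ := v.2
  have h1 : v.val 2 = ‖φ 2‖ := by
    rw [← hφ]; rfl
  rw [h1, map_ofNat]
  simp

theorem fin_nonarch {K : Type} [Field K] [NumberField K] (v : NumberField.FinitePlace K) :
    IsNonarchimedean v.val := fun x y => v.add_le x y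

theorem fbd (hLAR : LarStatement) (hLNA : LnaStatement) (hBDG : BdgStatement) :
    FbdStatement := by
  intro K _ _ g N α β T x u a h hu k
  refine ⟨?_, ?_⟩
  · intro v
    have h1 := hBDG K v.val g N α β T x u a (4 ^ g) (by positivity) h hu
      (fun j => hLAR K v.val g (T j) (T (2 * j)) (T 0) (inf_two v) (fun b => h.dup j b)) k
    have e : ((4 : ℝ) ^ g) ^ 5 = 4 ^ (5 * g) := by
      rw [← pow_mul, mul_comm]
    rwa [e] at h1
  · intro v
    have h2 : 0 < v.val 2 := v.val.pos two_ne_zero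
    have hp : 0 < v.val 2 ^ (2 * g) := pow_pos h2 _
    have h1 := hBDG K v.val g N α β T x u a (v.val 2 ^ (2 * g))⁻¹ (inv_pos.2 hp) h hu
      (fun j => by
        have h3 := hLNA K v.val g (T j) (T (2 * j)) (T 0) (fin_nonarch v) (fun b => h.dup j b)
        rw [mul_assoc, inv_mul_eq_div, le_div_iff₀ hp, mul_comm]
        exact h3) k
    have e : v.val 2 ^ (10 * g) * ((v.val 2 ^ (2 * g))⁻¹) ^ 5 = 1 := by
      rw [inv_pow, ← pow_mul, show 2 * g * 5 = 10 * g by ring]
      exact mul_inv_cancel₀ (pow_pos h2 _).ne'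
    calc v.val 2 ^ (10 * g) * v.val (ff β T u a k) ^ 3
        ≤ v.val 2 ^ (10 * g) * (((v.val 2 ^ (2 * g))⁻¹) ^ 5 * nv v.val (T 0) ^ 15) :=
          mul_le_mul_of_nonneg_left h1 (pow_pos h2 _).le
      _ = nv v.val (T 0) ^ 15 := by rw [← mul_assoc, e, one_mul]

end Pool.Agent.THS.H17
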